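import Mathlib
import Pool.Agent.Q92.PlanarCoarse

/-!
# MP_51e3e3_an: the achievement set of `(-1)^n (1/n, 1/√n)` is the whole plane
-/

namespace Pool.Agent.Results.MP_51e3e3_an.Planar

open Filter Topology Q92.Planar

/-- a partially constructed subseries -/
structure State (ρ : ℝ × ℝ) where
  n : ℕ
  F : Finset ℕ
  hn : 2000 ≤ n
  hF : ∀ m ∈ F, 1 ≤ m ∧ m < n
  hB : Box 1 n (ρ - ∑ m ∈ F, v m)

lemma exists_next {ρ : ℝ × ℝ} (st : State ρ) : ∃ st' : State ρ, st'.n = 8 * st.n ∧
    st.F ⊆ st'.F ∧ (st'.F \ st.F).card ≤ 4 ∧ ∀ m ∈ st'.F \ st.F, st.n ≤ m := by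
  classical
  obtain ⟨S, h1, h2, h3⟩ := block 1 le_rfl st.n (by simpa using st.hn) _ (by simpa using st.hB)
  have hdis : Disjoint st.F S := by
    rw [Finset.disjoint_left]
    intro m hm hm'
    have := st.hF m hm
    have := h1 m hm'
    omega
  have hsd : (st.F ∪ S) \ st.F = S := by
    rw [Finset.union_sdiff_left, Finset.sdiff_eq_self_of_disjoint hdis.symm]
  refine ⟨⟨8 * st.n, st.F ∪ S, by have := st.hn; omega, ?_, ?_⟩, rfl,
    Finset.subset_union_left, ?_, ?_⟩
  · intro m hm
    rcases Finset.mem_union.mp hm with hm | hm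
    · have := st.hF m hm; omega
    · have := h1 m hm; have := st.hn; omega
  · rw [Finset.sum_union hdis, ← sub_sub]; exact h3
  · show ((st.F ∪ S) \ st.F).card ≤ 4
    rw [hsd]; simpa using h2
  · intro m hm
    have hm' : m ∈ (st.F ∪ S) \ st.F := hm
    rw [hsd] at hm'
    exact (h1 m hm').1

noncomputable def nxt {ρ : ℝ × ℝ} (st : State ρ) : State ρ := Classical.choose (exists_next st)

lemma nxt_spec {ρ : ℝ × ℝ} (st : State ρ) : (nxt st).n = 8 * st.n ∧
    st.F ⊆ (nxt st).F ∧ ((nxt st).F \ st.F).card ≤ 4 ∧ ∀ m ∈ (nxt st).F \ st.F, st.n ≤ m :=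
  Classical.choose_spec (exists_next st)

lemma exists_start (ρ : ℝ × ℝ) : Nonempty (State ρ) := by
  classical
  obtain ⟨K, n, S, hK, hn, hS, hB⟩ := coarse ρ
  obtain ⟨S', h1, h2, h3⟩ := block K hK n hn _ hB
  have hK2 : 1 ≤ K ^ 2 := Nat.one_le_pow _ _ hK
  have hdis : Disjoint S S' := by
    rw [Finset.disjoint_left]
    intro m hm hm'
    have := hS m hm
    have := h1 m hm'
    omega
  refine ⟨⟨8 * n, S ∪ S', by omega, ?_, ?_⟩⟩
  · intro m hm
    rcases Finset.mem_union.mp hm with hm | hm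
    · have := hS m hm; omega
    · have := h1 m hm; omega
  · rw [Finset.sum_union hdis, ← sub_sub]; exact h3

lemma norm_v_le {m n : ℕ} (hn : 1 ≤ n) (h : n ≤ m) : ‖v m‖ ≤ yv n := by
  have h1 : yv m ≤ 1 := by
    have : yv m ≤ yv 1 := yv_anti (by norm_num) (by omega)
    have h1 : yv 1 = 1 := by unfold yv; simp
    linarith
  have h0 := yv_nonneg m
  have h2 : xv m ≤ yv m := by rw [← yv_sq]; nlinarith
  have h3 : yv m ≤ yv n := yv_anti (by omega) h
  rw [v_eq, Prod.norm_def]
  simp only [Real.norm_eq_abs, abs_mul, abs_pow, abs_neg, abs_one, one_pow, one_mul,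
    abs_of_nonneg h0, abs_of_nonneg (xv_nonneg m)]
  exact max_le (by linarith) h3

/-- **MP_51e3e3_an, Q1.** The achievement set of the series with terms
`v n = ((-1)^n / n, (-1)^n / √n)`, `n ≥ 1`, is the whole plane. -/
theorem result : achievementSet v = Set.univ := by
  classical
  rw [Set.eq_univ_iff_forall]
  intro ρ
  obtain ⟨st₀⟩ := exists_start ρ
  let st : ℕ → State ρ := fun j => nxt^[j] st₀
  have hst : ∀ j, st (j + 1) = nxt (st j) := fun j => Function.iterate_succ_apply' nxt j st₀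
  have hn : ∀ j, (st (j + 1)).n = 8 * (st j).n := fun j => by rw [hst]; exact (nxt_spec _).1
  have hsub : ∀ j, (st j).F ⊆ (st (j + 1)).F := fun j => by rw [hst]; exact (nxt_spec _).2.1
  have hcard : ∀ j, ((st (j + 1)).F \ (st j).F).card ≤ 4 := fun j => by
    rw [hst]; exact (nxt_spec _).2.2.1
  have hge : ∀ j, ∀ m ∈ (st (j + 1)).F \ (st j).F, (st j).n ≤ m := fun j => by
    rw [hst]; exact (nxt_spec _).2.2.2
  have hnmono : StrictMono fun j => (st j).n := strictMono_nat_of_lt_succ fun j => by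
    have := hn j
    have := (st j).hn
    show (st j).n < (st (j + 1)).n
    omega
  have hFmono : Monotone fun j => (st j).F := monotone_nat_of_le_succ hsub
  -- an element below `n_j` which appears at some stage already appears at stage `j`
  have hstab : ∀ j k, ∀ m ∈ (st k).F, m < (st j).n → m ∈ (st j).F := by
    intro j k
    induction k with
    | zero => intro m hm _; exact hFmono (Nat.zero_le j) hm
    | succ k ih =>
      intro m hm hlt
      by_cases hmk : m ∈ (st k).F
      · exact ih m hmk hlt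
      · have h1 := hge k m (Finset.mem_sdiff.mpr ⟨hm, hmk⟩)
        have h2 : (st k).n < (st j).n := by omega
        have h3 : k < j := hnmono.lt_iff_lt.mp h2
        exact hFmono (Nat.succ_le_of_lt h3) hm
  let ε : ℕ → ℕ := fun m => if ∃ k, m ∈ (st k).F then 1 else 0
  refine ⟨ε, fun m => ?_, ?_⟩
  · simp only [ε]; split_ifs <;> simp
  -- partial sums
  have hP : ∀ N j, (st j).n ≤ N + 1 → N + 1 < (st (j + 1)).n →
      ‖∑ m ∈ Finset.Icc 1 N, (ε m : ℝ) • v m - ρ‖ ≤ 5 * yv (st j).n := by
    intro N j h1 h2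
    have hnj := (st j).hn
    set T := ((st (j + 1)).F \ (st j).F).filter (fun m => m ≤ N) with hT
    have hdis : Disjoint (st j).F T := by
      rw [Finset.disjoint_left]
      intro m hm hm'
      rw [hT, Finset.mem_filter, Finset.mem_sdiff] at hm'
      exact hm'.1.2 hm
    have e1 : ∑ m ∈ Finset.Icc 1 N, (ε m : ℝ) • v m = ∑ m ∈ (st j).F ∪ T, v m := by
      have e2 : ∑ m ∈ Finset.Icc 1 N, (ε m : ℝ) • v m
          = ∑ m ∈ (Finset.Icc 1 N).filter (fun m => ∃ k, m ∈ (st k).F), v m := by
        rw [Finset.sum_filter]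
        refine Finset.sum_congr rfl fun m _ => ?_
        simp only [ε]
        split_ifs <;> simp
      rw [e2]
      congr 1
      ext m
      simp only [Finset.mem_filter, Finset.mem_Icc, Finset.mem_union, hT, Finset.mem_sdiff]
      constructor
      · rintro ⟨⟨hm1, hm2⟩, k, hk⟩
        have h3 := hstab (j + 1) k m hk (by omega)
        by_cases h4 : m ∈ (st j).F
        · exact Or.inl h4
        · exact Or.inr ⟨⟨h3, h4⟩, hm2⟩
      · rintro (hm | ⟨⟨hm1, hm2⟩, hm3⟩)
        · have := (st j).hF m hm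
          exact ⟨⟨this.1, by omega⟩, j, hm⟩
        · have := (st (j + 1)).hF m hm1
          exact ⟨⟨this.1, hm3⟩, j + 1, hm1⟩
    rw [e1, Finset.sum_union hdis]
    have e3 : ∑ m ∈ (st j).F, v m + ∑ m ∈ T, v m - ρ
        = ∑ m ∈ T, v m - (ρ - ∑ m ∈ (st j).F, v m) := by abel
    rw [e3]
    refine (norm_sub_le _ _).trans ?_
    have hy0 := yv_nonneg (st j).n
    have h3 : ‖∑ m ∈ T, v m‖ ≤ 4 * yv (st j).n := by
      refine (norm_sum_le _ _).trans ?_
      have h4 : ∀ m ∈ T, ‖v m‖ ≤ yv (st j).n := by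
        intro m hm
        rw [hT, Finset.mem_filter] at hm
        exact norm_v_le (by omega) (hge j m hm.1)
      refine (Finset.sum_le_sum h4).trans ?_
      rw [Finset.sum_const, nsmul_eq_mul]
      apply mul_le_mul_of_nonneg_right _ hy0
      have h5 : T.card ≤ 4 := (Finset.card_filter_le _ _).trans (hcard j)
      exact_mod_cast h5
    have h6 : ‖ρ - ∑ m ∈ (st j).F, v m‖ ≤ yv (st j).n := by
      obtain ⟨h7, h8⟩ := (st j).hB
      have h9 : yv (st j).n ≤ 1 := by
        have : yv (st j).n ≤ yv 1 := yv_anti (by norm_num) (by omega)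
        have h1 : yv 1 = 1 := by unfold yv; simp
        linarith
      have h10 : xv (st j).n ≤ yv (st j).n := by rw [← yv_sq]; nlinarith
      rw [Prod.norm_def]
      apply max_le
      · rw [Real.norm_eq_abs]; have := xv_nonneg (st j).n; linarith
      · rw [Real.norm_eq_abs]; linarith
    linarith
  rw [tendsto_iff_norm_sub_tendsto_zero, Metric.tendsto_atTop]
  intro δ hδ
  -- choose `J`
  have hyl : Tendsto (fun j => 5 * yv (st j).n) atTop (𝓝 0) := by
    have h1 : Tendsto (fun n : ℕ => yv n) atTop (𝓝 0) := by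
      unfold yv
      have := (tendsto_natCast_atTop_atTop (R := ℝ))
      exact (tendsto_const_nhds.div_atTop (Real.tendsto_sqrt_atTop.comp this))
    have h2 := (h1.comp hnmono.tendsto_atTop).const_mul 5
    simpa using h2
  obtain ⟨J, hJ⟩ := (hyl.eventually_lt_const hδ).exists
  refine ⟨(st J).n, fun N hN => ?_⟩
  have hex : ∃ j, N + 1 < (st j).n := by
    have h1 : ∀ j, j ≤ (st j).n := fun j => hnmono.le_apply
    exact ⟨N + 2, lt_of_lt_of_le (by omega) (h1 (N + 2))⟩
  set j₁ := Nat.find hex with hj₁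
  have h1 : N + 1 < (st j₁).n := Nat.find_spec hex
  have h2 : J < j₁ := by
    by_contra h
    push Not at h
    have : (st j₁).n ≤ (st J).n := hnmono.monotone h
    omega
  obtain ⟨j, hj⟩ : ∃ j, j₁ = j + 1 := ⟨j₁ - 1, by omega⟩
  have h3 : (st j).n ≤ N + 1 := by
    have := Nat.find_min hex (show j < Nat.find hex by omega)
    omega
  rw [hj] at h1
  have h4 := hP N j h3 h1
  have h5 : yv (st j).n ≤ yv (st J).n := by
    apply yv_anti
    · have := (st J).hn; omega
    · exact hnmono.monotone (by omega)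
  rw [Real.dist_eq, sub_zero, abs_of_nonneg (norm_nonneg _)]
  linarith

end Pool.Agent.Results.MP_51e3e3_an.Planar
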